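import Pool.Agent.H14.TauHurewicz2

/-!
MP_8f5cd4_gt: for sets of reals, the selection property `S_1(Omega, T)` implies the Hurewicz
property. It is enough to select from countable open omega-covers.
-/

set_option autoImplicit false

open Set Filter

namespace Pool.Agent.Results.MP_8f5cd4_gt.TauImpliesHurewicz

/-- The open covers of the space `Y`: families of open sets whose union is `Y`. -/
def OpenCovers (Y : Type) [TopologicalSpace Y] : Set (Set (Set Y)) :=
  {U | (∀ V ∈ U, IsOpen V) ∧ ⋃₀ U = univ}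

/-- The open `ω`-covers: `Y` is not a member, and each finite subset of `Y` is contained in a
member. -/
def OmegaCovers (Y : Type) [TopologicalSpace Y] : Set (Set (Set Y)) :=
  {U | U ∈ OpenCovers Y ∧ univ ∉ U ∧ ∀ F : Set Y, F.Finite → ∃ V ∈ U, F ⊆ V}

/-- The open `τ`-covers: each point lies in infinitely many members, and for all points `x`, `y`
only finitely many members contain `x` but not `y`, or only finitely many contain `y` but
not `x`. -/
def TauCovers (Y : Type) [TopologicalSpace Y] : Set (Set (Set Y)) :=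
  {U | U ∈ OpenCovers Y ∧ (∀ x, {V | V ∈ U ∧ x ∈ V}.Infinite) ∧
    ∀ x y, {V | V ∈ U ∧ x ∈ V ∧ y ∉ V}.Finite ∨ {V | V ∈ U ∧ y ∈ V ∧ x ∉ V}.Finite}

/-- The selection property `S_1(A, B)`: from each sequence of members of `A` one can choose one
set each such that the chosen sets form a member of `B`. -/
def SelectOne {Y : Type} (A B : Set (Set (Set Y))) : Prop :=
  ∀ U : ℕ → Set (Set Y), (∀ n, U n ∈ A) → ∃ f : ℕ → Set Y, (∀ n, f n ∈ U n) ∧ range f ∈ B

/-- The Hurewicz property: for each sequence of open covers there are finite subfamilies such that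
each point lies in the union of the `n`-th one for all but finitely many `n`. -/
def HurewiczProperty (Y : Type) [TopologicalSpace Y] : Prop :=
  ∀ U : ℕ → Set (Set Y), (∀ n, U n ∈ OpenCovers Y) →
    ∃ F : ℕ → Set (Set Y), (∀ n, F n ⊆ U n ∧ (F n).Finite) ∧
      ∀ x, ∀ᶠ n in atTop, x ∈ ⋃₀ F n

private theorem countable_sub {Y : Type} [TopologicalSpace Y] [SecondCountableTopology Y]
    (U : Set (Set Y)) (ho : ∀ V ∈ U, IsOpen V) (hF : ∀ F : Set Y, F.Finite → ∃ V ∈ U, F ⊆ V) :
    ∃ U' ⊆ U, U'.Countable ∧ ∀ F : Set Y, F.Finite → ∃ V ∈ U', F ⊆ V := by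
  classical
  set B := TopologicalSpace.countableBasis Y with hB
  have hBb := TopologicalSpace.isBasis_countableBasis Y
  set T : Set (Set (Set Y)) := {t | t.Finite ∧ t ⊆ B} with hT
  have hTc : T.Countable :=
    Set.countable_ofPred_finite_subset (TopologicalSpace.countable_countableBasis Y)
  set T' : Set (Set (Set Y)) := {t | t ∈ T ∧ ∃ V ∈ U, ⋃₀ t ⊆ V} with hT'
  have hT'c : T'.Countable := hTc.mono fun t ht => ht.1
  have hch : ∀ t : Set (Set Y), ∃ V : Set Y, t ∈ T' → V ∈ U ∧ ⋃₀ t ⊆ V := by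
    intro t
    by_cases ht : t ∈ T'
    · obtain ⟨V, hV, hs⟩ := ht.2
      exact ⟨V, fun _ => ⟨hV, hs⟩⟩
    · exact ⟨∅, fun h => absurd h ht⟩
  choose g hg using hch
  refine ⟨g '' T', ?_, hT'c.image g, ?_⟩
  · rintro _ ⟨t, ht, rfl⟩
    exact (hg t ht).1
  · intro F hFf
    obtain ⟨V, hV, hFV⟩ := hF F hFf
    have hb : ∀ x : Y, ∃ b : Set Y, x ∈ F → b ∈ B ∧ x ∈ b ∧ b ⊆ V := by
      intro x
      by_cases hx : x ∈ F
      · obtain ⟨b, hbB, hxb, hbV⟩ := hBb.exists_subset_of_mem_open (hFV hx) (ho V hV)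
        exact ⟨b, fun _ => ⟨hbB, hxb, hbV⟩⟩
      · exact ⟨∅, fun h => absurd h hx⟩
    choose b hb using hb
    have hmem : b '' F ∈ T' := by
      refine ⟨⟨hFf.image b, ?_⟩, V, hV, ?_⟩
      · rintro _ ⟨x, hx, rfl⟩
        exact (hb x hx).1
      · rintro z ⟨_, ⟨x, hx, rfl⟩, hz⟩
        exact (hb x hx).2.2 hz
    refine ⟨g (b '' F), ⟨_, hmem, rfl⟩, ?_⟩
    intro x hx
    exact (hg _ hmem).2 ⟨b x, ⟨x, hx, rfl⟩, (hb x hx).2.1⟩

/-- Let `X` be a set of reals and `A` any collection of families of subsets of `X` which contains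
all countable open `ω`-covers of `X`; for example `A` consists of all open `ω`-covers, or of the
countable ones. If `X` satisfies `S_1(A, T)`, where `T` is the collection of the open `τ`-covers
of `X`, then `X` has the Hurewicz property. -/
theorem result :
    ∀ (X : Set ℝ) (A : Set (Set (Set X))),
      {U | U ∈ OmegaCovers X ∧ U.Countable} ⊆ A → SelectOne A (TauCovers X) →
        HurewiczProperty X := by
  intro X A hA hS
  have h : Pool.Agent.H14.Tau.S1OT X := by
    intro U hU
    have hch : ∀ n, ∃ U' ⊆ U n, U'.Countable ∧ ∀ F : Set X, F.Finite → ∃ V ∈ U', F ⊆ V := by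
      intro n
      apply countable_sub (U n) (hU n).1
      intro F hF
      obtain ⟨V, hV, hFV⟩ := (hU n).2.2 hF.toFinset
      exact ⟨V, hV, by simpa using hFV⟩
    choose U' hsub hcount hfin using hch
    obtain ⟨f, hf, hr⟩ := hS U' fun n => hA ⟨⟨⟨fun V hV => (hU n).1 V (hsub n hV), by
      apply eq_univ_of_forall
      intro x
      obtain ⟨V, hV, hx⟩ := hfin n {x} (finite_singleton x)
      exact ⟨V, hV, hx rfl⟩⟩, fun hV => (hU n).2.1 (hsub n hV), hfin n⟩, hcount n⟩
    refine ⟨f, fun n => hsub n (hf n), hr.1.1, ?_, hr.2.1, ?_⟩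
    · rintro ⟨n, hn⟩
      exact (hU n).2.1 (hn ▸ hsub n (hf n))
    · intro x y
      have e : ∀ x y : X, {W : Set X | W ∈ range f ∧ x ∈ W} \ {W : Set X | W ∈ range f ∧ y ∈ W} =
          {V | V ∈ range f ∧ x ∈ V ∧ y ∉ V} := by
        intro x y
        ext W
        simp only [Set.mem_sdiff, Set.mem_ofPred_eq]
        tauto
      rw [e x y, e y x]
      exact hr.2.2 x y
  intro U hU
  obtain ⟨F, hF, hx⟩ := Pool.Agent.H14.Tau.hurewicz X h U hU
  exact ⟨fun n => (F n : Set (Set X)), fun n => ⟨hF n, (F n).finite_toSet⟩, hx⟩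

end Pool.Agent.Results.MP_8f5cd4_gt.TauImpliesHurewicz
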